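import Pool.Agent.Run7.h536.CE9

set_option autoImplicit false

/-!
# Conjecture F for `a x² + b x + A`: almost all `a` of a thin family, ALL `b`, almost all `A`

Let `a` run through a family of integers of size at most `H` whose additive energy of some order is minimal up to a power
of `log X` (for example the integers whose digits satisfy arbitrary restrictions, the `k ^ e` with `k ≤ H ^ (1/e)`, the
primes, the values of a fixed polynomial, and the dense subsets of these). For almost all `a` of the family, UNIFORMLY in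
ALL middle coefficients `b` with `|b| ≤ B H X`, and for almost all constant terms `|A| ≤ B H X²`, the asymptotic formula of
Hardy and Littlewood with the explicit constant `∏_p (1 - 1/p)⁻¹ (1 - ρ(p)/p)`, truncated at a power of `log X`, holds for
all the intervals `1 ≤ x ≤ M`, `M ≤ X`. The middle coefficient may depend on `a` and on all the data in an arbitrary way.

Proof. A new bound for the additive energy of a family of values `a_i m² + b_i m`, `b_i` arbitrary (`Run7.h536.CE1` to
`CE4`), with the circle method for correlations of primes with families of nearly minimal energy (starting files,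
`TH872.Sq`, `R459.fam_near_fin`), a maximal choice of the bad `b_i`, a grid for the initial segments (`CE5`, `CE6`) and
the fundamental lemma of the sieve for the main term (`LD3`).
-/

namespace Pool.Agent.Results.MP_8be758_nt.AllMiddleCoefficients

open Finset Polynomial

/-- The additive energy of order `h` of a family of integers: the number of the solutions of
`v(i_1) + ⋯ + v(i_h) = v(j_1) + ⋯ + v(j_h)`. -/
noncomputable def energy (h : ℕ) {ι : Type} [Fintype ι] (v : ι → ℤ) : ℕ :=
  Nat.card {q : (Fin h → ι) × (Fin h → ι) // ∑ j, v (q.1 j) = ∑ j, v (q.2 j)}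

/-- The number `ρ(p)` of the residues `x` modulo `p` with `F(x) ≡ 0`. -/
noncomputable def rho (F : ℤ[X]) (p : ℕ) : ℕ := ((range p).filter (fun x : ℕ => (p : ℤ) ∣ F.eval (x : ℤ))).card

/-- The singular product `∏_{p ≤ z} (1 - 1/p)⁻¹ (1 - ρ(p)/p)`. For `F = x² + x + A`, `A` odd, the factor of an odd prime
`p` is `1 - (Δ/p)/(p - 1)`, `Δ = 1 - 4A`. -/
noncomputable def singular (F : ℤ[X]) (z : ℕ) : ℝ :=
  ∏ p ∈ (Icc 1 z).filter Nat.Prime, ((1 - 1 / (p : ℝ))⁻¹ * (1 - (rho F p : ℝ) / p))

/-- Functions between `log` on the primes and the von Mangoldt function. -/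
def PrimeLike (L : ℕ → ℝ) : Prop :=
  ∀ n, (if n.Prime then Real.log n else 0) ≤ L n ∧ L n ≤ ArithmeticFunction.vonMangoldt n

open Classical in
/-- The number of the integers `A`, `|A| ≤ N`, such that for some `M ≤ X` the sum of `L(|f(x) + A|)` over `1 ≤ x ≤ M`
differs from `M ∏_{p ≤ z} (1 - 1/p)⁻¹ (1 - ρ(p)/p)`, `ρ` counting the zeros of `f + A`, by more than `δ`. -/
noncomputable def exceptions (N X z : ℕ) (L : ℕ → ℝ) (δ : ℝ) (f : ℤ[X]) : ℕ :=
  ((Icc (-(N : ℤ)) N).filter (fun A : ℤ => ∃ M : ℕ, M ≤ X ∧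
    δ < |∑ x ∈ Icc 1 M, L (f.eval (x : ℤ) + A).natAbs - M * singular (f + C A) z|)).card

open Classical in
/-- Fix `h`, `r`, `B`, `C`, `U`. There is `B₀` such that for all `E` and all large `X`: let `H ≤ X ^ r`, `X ≤ H ^ r`, let
`a_i`, `i ∈ ι`, be a family of integers with `|a_i| ≤ B H` whose energy of order `h` is at most
`(log X) ^ C |ι| ^ (2h) / H`, `z` an integer between `(log X) ^ B₀` and `(log X) ^ E`, and `L` a function between `log` on
the primes and the von Mangoldt function. Then for all but at most `|ι| / (log X) ^ U` of the `i ∈ ι`: for ALL integers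
`b` with `|b| ≤ B H X`, for all but at most `H X² / (log X) ^ U` of the integers `A` with `|A| ≤ B H X²`: for all `M ≤ X`
the sum of `L(|a_i x² + b x + A|)` over `1 ≤ x ≤ M` is `M ∏_{p ≤ z} (1 - 1/p)⁻¹ (1 - ρ(p)/p)` up to `X / (log X) ^ U`. -/
theorem result (h r B C U : ℕ) (hh : 1 ≤ h) (hr : 1 ≤ r) (hB : 1 ≤ B) :
    ∃ B₀ : ℕ, ∀ E : ℕ, ∃ x₀ : ℕ, ∀ X : ℕ, x₀ ≤ X → ∀ H : ℕ, H ≤ X ^ r → X ≤ H ^ r →
    ∀ (ι : Type) [Fintype ι] (a : ι → ℤ), (∀ i, |a i| ≤ B * H) →
    (energy h a : ℝ) * H ≤ Real.log X ^ C * (Fintype.card ι : ℝ) ^ (2 * h) →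
    ∀ z : ℕ, Real.log X ^ B₀ ≤ z → (z : ℝ) ≤ Real.log X ^ E → ∀ L : ℕ → ℝ, PrimeLike L →
    ((univ.filter (fun i : ι => ∃ b : ℤ, |b| ≤ B * (H * X) ∧
      ((H * X ^ 2 : ℕ) : ℝ) / Real.log X ^ U <
        exceptions (B * (H * X ^ 2)) X z L (X / Real.log X ^ U)
          (Polynomial.C (a i) * Polynomial.X ^ 2 + Polynomial.C b * Polynomial.X))).card : ℝ) ≤
      Fintype.card ι / Real.log X ^ U := by
  obtain ⟨B0, h0⟩ := Pool.Agent.Run7.h536.CE.cross_one 2 h le_rfl hh r (6 * B) C U hr (by omega)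
  refine ⟨B0, fun E => ?_⟩
  obtain ⟨x0, h1⟩ := h0 E
  refine ⟨x0, fun X hX H hH1 hH2 ι _ a ha hE z hz1 hz2 L hL => ?_⟩
  refine le_trans (Nat.cast_le.2 (card_le_card ?_)) (h1 X hX H hH1 hH2 ι a (fun i => (ha i).trans (by
    push_cast
    nlinarith [Int.natCast_nonneg B, Int.natCast_nonneg H, mul_nonneg (Int.natCast_nonneg B) (Int.natCast_nonneg H)])) hE 1 one_ne_zero z hz1 hz2 L hL)
  intro i hi
  rw [mem_filter] at hi ⊢
  obtain ⟨_, b, hb, hb2⟩ := hi
  refine ⟨mem_univ _, Polynomial.C (a i) * Polynomial.X ^ 2 + Polynomial.C b * Polynomial.X, ?_, ?_, ?_, ?_⟩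
  · compute_degree
  · rw [coeff_add, coeff_C_mul, coeff_C_mul, coeff_X_pow, coeff_X, if_pos rfl, if_neg (by norm_num)]
    ring
  · intro m hm
    rw [mem_range] at hm
    have hm' : (m : ℤ) ≤ 2 * X := by exact_mod_cast hm.le
    have hm0 : (0 : ℤ) ≤ m := Int.natCast_nonneg m
    have hX0 : (0 : ℤ) ≤ X := Int.natCast_nonneg X
    have hH0 : (0 : ℤ) ≤ H := Int.natCast_nonneg H
    have hB0 : (0 : ℤ) ≤ B := Int.natCast_nonneg B
    have ha' := ha i
    simp only [eval_add, eval_mul, eval_C, eval_pow, eval_X]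
    have e1 : |a i * (m : ℤ) ^ 2| ≤ B * H * (2 * X) ^ 2 := by
      rw [abs_mul, abs_of_nonneg (pow_nonneg hm0 2)]
      exact mul_le_mul ha' (pow_le_pow_left₀ hm0 hm' 2) (pow_nonneg hm0 2) (by positivity)
    have e2 : |b * (m : ℤ)| ≤ B * (H * X) * (2 * X) := by
      rw [abs_mul, abs_of_nonneg hm0]
      exact mul_le_mul hb hm' hm0 (by positivity)
    refine (abs_add_le _ _).trans ((add_le_add e1 e2).trans (le_of_eq ?_))
    push_cast
    ring
  · refine lt_of_lt_of_le hb2 (Nat.cast_le.2 (card_le_card ?_))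
    intro A hA
    rw [mem_filter, mem_Icc] at hA ⊢
    refine ⟨⟨?_, ?_⟩, hA.2⟩
    · have := hA.1.1
      push_cast at this ⊢
      nlinarith [mul_nonneg (Int.natCast_nonneg B) (mul_nonneg (Int.natCast_nonneg H) (pow_nonneg (Int.natCast_nonneg X) 2))]
    · have := hA.1.2
      push_cast at this ⊢
      nlinarith [mul_nonneg (Int.natCast_nonneg B) (mul_nonneg (Int.natCast_nonneg H) (pow_nonneg (Int.natCast_nonneg X) 2))]

end Pool.Agent.Results.MP_8be758_nt.AllMiddleCoefficients
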