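import Pool.Agent.Run7.h294.P6

set_option autoImplicit false

/-!
# Composite values of a polynomial at prescribed shifts

Let `f` be an irreducible integer polynomial of degree at least `1`, for example `f = x ^ 2 + x + A`, `A ≥ 1`, and let `K` be a
natural number. There are `c, C > 0` such that, for all large `X`, all real `μ` with `0 ≤ μ ≤ c log log X`, EVERY finite
set `S` of at most `μ log X` integers of absolute value at most `X ^ K` and every integer `M`, at least
`X exp (- C e ^ (C μ) (log log X) ^ 2)` of the `X` integers `a` in `(M, M + X]` are such that all the numbers `f (a + s)`,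
`s` in `S`, are composite; each of them has a prime factor `p ≤ X ^ (1/10)`, `p < |f (a + s)|`.

For `S = {1, ..., ⌊μ log X⌋}` these are runs of `⌊μ log X⌋` consecutive integers `x` for which `|f (x)|` is not a prime.

Method. A second moment with truncated square weights (starting library `Pool.Agent.H256R2.SC`, used as in
`MP_f9960f_nt.UniformGapTail` of this run) for the primes `p > (log X) ^ 11` with the `ρ (p)` root classes of `f`,
restricted by weights supported on the primes of dyadic layers, in a class of the small primes with few survivors. The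
input on `f` is the theorem `∑ ρ (p) / p = log log w + O (1)` and the resultant polynomial of the starting library
`Pool.Agent.H474R2` (whose theorem `composite_strings` gives one run of the length `c log X log log X` in every interval
of length `X`).
-/

namespace Pool.Agent.Results.MP_8be758_nt.CompositeAtShifts

open Polynomial

/-- **Composite values of an irreducible polynomial at prescribed shifts: many of them.** -/
theorem result (f : ℤ[X]) (hf : Irreducible f) (hd : 0 < f.natDegree) (K : ℕ) :
    ∃ c C : ℝ, 0 < c ∧ 0 < C ∧ ∃ X₀ : ℕ, ∀ X : ℕ, X₀ ≤ X → ∀ μ : ℝ, 0 ≤ μ →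
    μ ≤ c * Real.log (Real.log X) → ∀ S : Finset ℤ, (∀ s ∈ S, |(s : ℝ)| ≤ (X : ℝ) ^ K) →
    (S.card : ℝ) ≤ μ * Real.log X → ∀ M : ℤ,
    (X : ℝ) * Real.exp (-(C * Real.exp (C * μ) * (Real.log (Real.log X)) ^ 2)) ≤
      ({a : ℤ | M < a ∧ a ≤ M + X ∧ ∀ s ∈ S, ∃ p : ℕ, p.Prime ∧
        (p : ℝ) ^ 10 ≤ X ∧ (p : ℤ) ∣ f.eval (a + s) ∧ (p : ℤ) < |f.eval (a + s)|}.ncard : ℝ) := by
  obtain ⟨c, C, hc, hC, X₀, h⟩ := Run7.h294.P.main_poly f hf hd K
  refine ⟨c, C, hc, hC, X₀, fun X hX μ hμ hμ' S hS hS' M => ?_⟩
  refine (h X hX μ hμ hμ' S hS hS' M).trans (le_of_eq ?_)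
  rw [← Set.ncard_coe_finset]
  congr 2
  ext a
  simp [Finset.mem_filter, Finset.mem_Ioc, and_assoc]

end Pool.Agent.Results.MP_8be758_nt.CompositeAtShifts
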