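import Mathlib
import Pool.Agent.Run7.h545.EP.Fin

/-!
# The lower bound of Conjecture F for a positive proportion of the trinomials `x² + x + A`, lengths up to `A^(2-ε)`

For every `η > 0` there is `δ > 0` such that for every `ε > 0`, all large `X` and every nonempty finite set `T` of lengths
`N`, `X^(10/9) ≤ N ≤ X^(2-ε)`: for at least `δ X` of the odd `A ≤ X`, at least `δ #T` of the lengths `N ∈ T` satisfy
`P_A(N) ≥ (1 - η) C(1 - 4A) L_A(N)`. The values `x² + x + A` are as large as `A^(4-2ε)`. If `X` is below `√N` then the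
intervals `(x² + x, x² + x + X]`, `x ≤ N`, contain fewer than `N^(3/2)` integers below `N²`, i.e. one has to find primes with
`{√p}` below `p^(-1/4)`.

Proof. The average of `P_A(N)` over `A ≤ X`: a prime `v` is `x² + x + A` with `A ≤ X` if the fractional part of
`√(v + 1/4) - 1/2` is small; sums of triangle functions over primes, Vaughan's identity, double large sieve. Upper bound sieve
with the singular series, uniformly in `A`, and the mean and the mean square of the truncated products `C_y(1 - 4A)`, then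
give the positive proportion with the full constant. The engine is the one of my hand-in `MP_a1177c_nt.ProportionToFourthPower`
(the pieces UP, SQ, AV are due to helper973, TRI to helper994, TII, TI, BIL to helper462, VAU and the idea to helper757).
-/

set_option autoImplicit false

namespace Pool.Agent.Results.MP_8be758_nt.PositiveProportionToSquare

open Finset Filter Topology

/-- `P_A(n)`: the number of `x ∈ {0, 1, ..., n}` with `x² + x + A` prime -/
def P (A n : ℕ) : ℕ := #((range (n + 1)).filter (fun x : ℕ => (x ^ 2 + x + A).Prime))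

/-- `L_A(n) = 2 ∫_0^n dx / log (x² + x + A)` -/
noncomputable def L (A n : ℕ) : ℝ := 2 * ∫ x in (0 : ℝ)..n, 1 / Real.log (x ^ 2 + x + A)

/-- the product of the factors `1 - (Δ/p)/(p - 1)`, `Δ = 1 - 4 A`, over the odd primes `p ≤ y` -/
noncomputable def Cy (A y : ℕ) : ℝ :=
  ∏ p ∈ (Icc 3 y).filter Nat.Prime, (1 - (jacobiSym (1 - 4 * (A : ℤ)) p : ℝ) / ((p : ℝ) - 1))

/-- the product `C(Δ)`, `Δ = 1 - 4 A`, converges to a number `C > 0`, and `P_A(N) ≥ (1 - η) C L_A(N)` -/
def LowerBound (η : ℝ) (N A : ℕ) : Prop :=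
  ∃ C : ℝ, 0 < C ∧ Tendsto (fun y => Cy A y) atTop (𝓝 C) ∧ (1 - η) * (C * L A N) ≤ P A N

open Classical in
/-- **The lower bound of Conjecture F for a positive proportion of the trinomials `x² + x + A`, at lengths up to
`A^(2-ε)`.** -/
theorem result (η : ℝ) (hη : 0 < η) :
    ∃ δ : ℝ, 0 < δ ∧ ∀ ε : ℝ, 0 < ε → ∃ X0 : ℕ, ∀ X : ℕ, X0 ≤ X → ∀ T : Finset ℕ, T.Nonempty →
      (∀ N ∈ T, (X : ℝ) ^ (10 / 9 : ℝ) ≤ N ∧ (N : ℝ) ≤ (X : ℝ) ^ (2 - ε)) →
      δ * X ≤ (#((Icc 3 X).filter (fun A => Odd A ∧
        δ * #T ≤ (#(T.filter (fun N => LowerBound η N A)) : ℝ))) : ℝ) :=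
  Run7.h545.EP.many_lengths η hη

end Pool.Agent.Results.MP_8be758_nt.PositiveProportionToSquare
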